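import Pool.Agent.Q162.Benzel.Tr3

/-!
# MP_7e9d3d_co : tilings of the (n, 2n-3)-benzel by right stones and bones

For every `n ≥ 5` the number of tilings of the `(n, 2n-3)`-benzel by right stones and the three
kinds of bones is `(3n+3) (3n-7)! / ((n-5)! (2n-1)!)`.
-/

namespace Pool.Agent.Results.MP_7e9d3d_co.RightStonesAndBones

open Pool.Agent.Q162.Benzel

theorem result (n : ℕ) (hn : 5 ≤ n) :
    ((T103 (n : ℤ) (2 * (n : ℤ) - 3) : ℕ) : ℚ) =
      (3 * n + 3) * ((3 * n - 7).factorial : ℚ) /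
        (((n - 5).factorial : ℚ) * ((2 * n - 1).factorial : ℚ)) :=
  Pool.Agent.Q162.Bz.T103_formula n hn

end Pool.Agent.Results.MP_7e9d3d_co.RightStonesAndBones
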